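import Pool.Agent.H144R3.CBFinal

namespace Pool.Agent.Results.MP_8c97d4_nt.SunTwo

open Finset Pool.Agent.H144R3.CB

/-- `B N = ∑_{k=0}^{N-1} C(2k,k)`. -/
def B (N : ℕ) : ℤ := ∑ k ∈ range N, (((2 * k).choose k : ℕ) : ℤ)

/-- The Kronecker symbol `(-3/p)` at a prime `p`: it is `-1` at `p = 2` and the Legendre symbol
(value `0` at `p = 3`) at odd primes. -/
def kron3 (p : ℕ) : ℤ := if p = 2 then -1 else jacobiSym (-3) p

theorem j3 (a : ℤ) : jacobiSym a 3 = f3 (a : ZMod 3) := by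
  rw [jacobiSym.mod_left]
  have h : ∀ x : ZMod 3, jacobiSym (x.val : ℤ) 3 = f3 x := by decide +kernel
  have h2 := h (a : ZMod 3)
  have h3 : (((a : ZMod 3).val : ℕ) : ℤ) = a % 3 := by
    rw [ZMod.val_intCast]; rfl
  rw [h3] at h2
  exact_mod_cast h2

theorem c3_eq (p : ℕ) (hp : Odd p) : c3 p = jacobiSym (-3) p := by
  have h1 : jacobiSym (-3) p = jacobiSym (-1) p * jacobiSym 3 p := by
    rw [← jacobiSym.mul_left]; norm_num
  rw [h1, jacobiSym.at_neg_one hp]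
  have h2 : c3 p = jacobiSym p 3 := by rw [j3]; rfl
  rw [h2]
  rcases Nat.odd_mod_four_iff.1 (Nat.odd_iff.1 hp) with h | h
  · have h3 := jacobiSym.quadratic_reciprocity_one_mod_four (a := p) (b := 3) h (by decide)
    rw [ZMod.χ₄_nat_one_mod_four h, one_mul]
    exact_mod_cast h3
  · have h3 := jacobiSym.quadratic_reciprocity_three_mod_four (a := p) (b := 3) h (by decide)
    rw [ZMod.χ₄_nat_three_mod_four h]
    have h4 : jacobiSym ((p : ℕ) : ℤ) 3 = - jacobiSym ((3 : ℕ) : ℤ) p := h3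
    rw [h4]; push_cast; ring

/-- **Sun's conjecture, second part**: for every prime `p` (including `2` and `3`) and every `r ≥ 1`,
`B(p^r) ≡ (-3/p) B(p^(r-1)) (mod p^(2r))`. -/
theorem result (p : ℕ) (hp : p.Prime) (r : ℕ) (hr : 1 ≤ r) :
    B (p ^ r) ≡ kron3 p * B (p ^ (r - 1)) [ZMOD (p : ℤ) ^ (2 * r)] := by
  have : Fact p.Prime := ⟨hp⟩
  obtain ⟨r, rfl⟩ : ∃ s, r = s + 1 := ⟨r - 1, by omega⟩
  rw [Nat.add_sub_cancel]
  have hB : ∀ n, SS c3 n = B n := SS_three_eq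
  apply Int.ModEq.symm
  rw [Int.modEq_iff_dvd]
  by_cases h2 : p = 2
  · subst h2
    have h := SS_two r
    rw [hB, hB] at h
    simp only [kron3, if_true]
    have e : B (2 ^ (r + 1)) - -1 * B (2 ^ r) = B (2 ^ (r + 1)) + B (2 ^ r) := by ring
    rw [e]
    exact_mod_cast h
  · have h := SS_three p h2 r
    rw [hB, hB, c3_eq p (hp.odd_of_ne_two h2)] at h
    simp only [kron3, if_neg h2]
    exact h

end Pool.Agent.Results.MP_8c97d4_nt.SunTwo
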